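import Pool.Agent.Helper17.RZ.St4

/-!
# Project RZ (MP_77656e_ag), modules D4a, D4b: linear factors and the factor resolution
-/

set_option autoImplicit false

open MvPolynomial

namespace Pool.Agent.Helper36.RZ

open Pool.Agent.Helper17.RZ

universe u

noncomputable section

theorem linFac : LinFac.{u} := by
  intro k _ _ σ hσ s
  obtain ⟨w, hw⟩ := hσ
  have h1 : lt k s (w.1 s) ∣ fs k σ :=
    (Finset.dvd_prod_of_mem (fun s => lt k s (w.1 s)) (Finset.mem_univ s)).trans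
      (Finset.dvd_prod_of_mem (fun w : GW => fw k w.1) hw)
  obtain ⟨i, hi⟩ := IsAlgClosed.exists_pow_nat_eq (-1 : k) (n := 2) (by norm_num)
  have hi' : (C i : SS k) ^ 2 = -1 := by rw [← map_pow, hi, map_neg, map_one]
  have key : ∀ c : Fin 5, ∃ κ : k, (X (s, false) + C κ * X (s, true) : SS k) ∣ lt k s c := by
    intro c
    fin_cases c
    · refine ⟨i, (X (s, false) - C i * X (s, true)) * (X (s, false) ^ 2 + X (s, true) ^ 2), ?_⟩
      change (X (s, false) ^ 2 + X (s, true) ^ 2 : SS k) ^ 2 = _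
      linear_combination ((X (s, false) ^ 2 + X (s, true) ^ 2) * X (s, true) ^ 2 : SS k) * hi'
    · refine ⟨0, X (s, false) * X (s, true) ^ 2, ?_⟩
      change (X (s, false) ^ 2 * X (s, true) ^ 2 : SS k) = _
      rw [C_0]
      ring
    · refine ⟨0, (X (s, false) ^ 2 + X (s, true) ^ 2) * X (s, true), ?_⟩
      change ((X (s, false) ^ 2 + X (s, true) ^ 2) * (X (s, false) * X (s, true)) : SS k) = _
      rw [C_0]
      ring
    · refine ⟨1, (X (s, false) ^ 2 + X (s, true) ^ 2) * (X (s, false) - X (s, true)), ?_⟩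
      change ((X (s, false) ^ 2 + X (s, true) ^ 2) * (X (s, false) ^ 2 - X (s, true) ^ 2) : SS k) = _
      rw [C_1]
      ring
    · refine ⟨0, X (s, true) * (X (s, false) ^ 2 - X (s, true) ^ 2), ?_⟩
      change (X (s, false) * X (s, true) * (X (s, false) ^ 2 - X (s, true) ^ 2) : SS k) = _
      rw [C_0]
      ring
  obtain ⟨κ, hκ⟩ := key (w.1 s)
  exact ⟨κ, hκ.trans h1⟩

section matrices

variable {F : Type u} [Field F]

/-- the retraction -/
def qr (x y c : F) : Matrix Bool (Fin 8) F :=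
  Matrix.of fun b i => if b then ![0, 1 / (x + c * y) ^ 3, 3 * c / (x + c * y) ^ 3,
      3 * c ^ 2 / (x + c * y) ^ 3, c ^ 3 / (x + c * y) ^ 3, 0, 0, 0] i
    else ![1, 0, 0, 0, 0, 0, 0, 0] i

/-- the numerators of the homotopy: coefficients of `x^2` -/
def qA (c : F) : Matrix (Fin 8) (Fin 8) F :=
    !![0, 0, 0, 0, 0, 0, 0, 0;
       0, 0, 0, 0, 0, -(3 * c), -(3 * c ^ 2), -c ^ 3;
       0, 0, 0, 0, 0, 1, 0, 0;
       0, 0, 0, 0, 0, 0, 1, 0;
       0, 0, 0, 0, 0, 0, 0, 1;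
       0, 0, 0, 0, 0, 0, 0, 0;
       0, 0, 0, 0, 0, 0, 0, 0;
       0, 0, 0, 0, 0, 0, 0, 0]

/-- coefficients of `x y` -/
def qB (c : F) : Matrix (Fin 8) (Fin 8) F :=
    !![0, 0, 0, 0, 0, 0, 0, 0;
       0, 0, 0, 0, 0, -(3 * c ^ 2), -c ^ 3, 0;
       0, 0, 0, 0, 0, 0, -(3 * c ^ 2), -c ^ 3;
       0, 0, 0, 0, 0, 1, 3 * c, 0;
       0, 0, 0, 0, 0, 0, 1, 3 * c;
       0, 0, 0, 0, 0, 0, 0, 0;
       0, 0, 0, 0, 0, 0, 0, 0;
       0, 0, 0, 0, 0, 0, 0, 0]

/-- coefficients of `y^2` -/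
def qC (c : F) : Matrix (Fin 8) (Fin 8) F :=
    !![0, 0, 0, 0, 0, 0, 0, 0;
       0, 0, 0, 0, 0, -c ^ 3, 0, 0;
       0, 0, 0, 0, 0, 0, -c ^ 3, 0;
       0, 0, 0, 0, 0, 0, 0, -c ^ 3;
       0, 0, 0, 0, 0, 1, 3 * c, 3 * c ^ 2;
       0, 0, 0, 0, 0, 0, 0, 0;
       0, 0, 0, 0, 0, 0, 0, 0;
       0, 0, 0, 0, 0, 0, 0, 0]

/-- the homotopy -/
def qt (x y c : F) : Matrix (Fin 8) (Fin 8) F :=
  Matrix.of fun i j => (qA c i j * x ^ 2 + qB c i j * (x * y) + qC c i j * y ^ 2) / (x + c * y) ^ 3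

theorem qr_qdm (x y c : F) : qr x y c * qdm x y = 0 := by
  ext i j
  cases i <;> fin_cases j <;> simp [qdm, qr, Matrix.mul_apply, Fin.sum_univ_succ]

theorem qr_qeps (x y c : F) (h : x + c * y ≠ 0) : qr x y c * qeps x y = 1 := by
  obtain ⟨l, rfl⟩ : ∃ l, x = l - c * y := ⟨x + c * y, by ring⟩
  rw [sub_add_cancel] at h
  ext i j
  cases i <;> cases j <;> simp [qeps, qr, Matrix.mul_apply, Fin.sum_univ_succ]
  field_simp
  ring

theorem q_homotopy (x y c : F) (h : x + c * y ≠ 0) :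
    1 - qeps x y * qr x y c = qdm x y * qt x y c + qt x y c * qdm x y := by
  obtain ⟨l, rfl⟩ : ∃ l, x = l - c * y := ⟨x + c * y, by ring⟩
  rw [sub_add_cancel] at h
  ext i j
  rw [Matrix.sub_apply, Matrix.add_apply, Matrix.mul_apply, Matrix.mul_apply, Matrix.mul_apply,
    Fin.sum_univ_eight, Fin.sum_univ_eight, Fintype.sum_bool]
  fin_cases i <;> fin_cases j <;> simp [qdm, qt, qA, qB, qC, qr, qeps] <;> field_simp <;> ring

theorem qA_map {F' : Type u} [Field F'] (φ : F →+* F') (c : F) (i j : Fin 8) :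
    qA (φ c) i j = φ (qA c i j) := by
  have h3 : φ 3 = 3 := map_ofNat φ 3
  fin_cases i <;> fin_cases j <;> simp [qA, h3]

theorem qB_map {F' : Type u} [Field F'] (φ : F →+* F') (c : F) (i j : Fin 8) :
    qB (φ c) i j = φ (qB c i j) := by
  have h3 : φ 3 = 3 := map_ofNat φ 3
  fin_cases i <;> fin_cases j <;> simp [qB, h3]

theorem qC_map {F' : Type u} [Field F'] (φ : F →+* F') (c : F) (i j : Fin 8) :
    qC (φ c) i j = φ (qC c i j) := by
  have h3 : φ 3 = 3 := map_ofNat φ 3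
  fin_cases i <;> fin_cases j <;> simp [qC, h3]

theorem q_cases (c : F) (i j : Fin 8) :
    (qA c i j = 0 ∧ qB c i j = 0 ∧ qC c i j = 0) ∨ (qtw i = qtw j - 1 ∧ qgr i = qgr j - 1) := by
  fin_cases i <;> fin_cases j <;> simp [qA, qB, qC, qtw, qgr]

end matrices

variable {k : Type u} [Field k]

theorem hom_C (c : k) (s : Fin 4) :
    IsWeightedHomogeneous wt (C c : SS k) (Pi.single s 0 : Fin 4 → ℕ) := by
  rw [Pi.single_zero]
  exact isWeightedHomogeneous_C wt c

theorem hom_X (s : Fin 4) (j : Bool) :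
    IsWeightedHomogeneous wt (X (s, j) : SS k) (Pi.single s 1 : Fin 4 → ℕ) :=
  isWeightedHomogeneous_X k wt (s, j)

theorem hom_mul {p q : SS k} {s : Fin 4} {m n : ℕ}
    (hp : IsWeightedHomogeneous wt p (Pi.single s m : Fin 4 → ℕ))
    (hq : IsWeightedHomogeneous wt q (Pi.single s n : Fin 4 → ℕ)) :
    IsWeightedHomogeneous wt (p * q) (Pi.single s (m + n) : Fin 4 → ℕ) := by
  rw [Pi.single_add]
  exact hp.mul hq

theorem hom_add {p q : SS k} {s : Fin 4} {m : ℕ}
    (hp : IsWeightedHomogeneous wt p (Pi.single s m : Fin 4 → ℕ))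
    (hq : IsWeightedHomogeneous wt q (Pi.single s m : Fin 4 → ℕ)) :
    IsWeightedHomogeneous wt (p + q) (Pi.single s m : Fin 4 → ℕ) :=
  (weightedHomogeneousSubmodule k wt (Pi.single s m : Fin 4 → ℕ)).add_mem hp hq

theorem hom_pow {p : SS k} {s : Fin 4} {m : ℕ}
    (hp : IsWeightedHomogeneous wt p (Pi.single s m : Fin 4 → ℕ)) (n : ℕ) :
    IsWeightedHomogeneous wt (p ^ n) (Pi.single s (n * m) : Fin 4 → ℕ) := by
  have h : (Pi.single s (n * m) : Fin 4 → ℕ) = n • Pi.single s m := by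
    rw [← Pi.single_smul, smul_eq_mul]
  rw [h]
  exact hp.pow n

theorem mem_HD {g l : SS k} {s : Fin 4} {m p : ℕ} {d : ℤ} (hl : l ≠ 0)
    (hg : IsWeightedHomogeneous wt g (Pi.single s m : Fin 4 → ℕ))
    (hl' : IsWeightedHomogeneous wt l (Pi.single s 1 : Fin 4 → ℕ)) (hd : (m : ℤ) - p = d) :
    al k g / al k l ^ p ∈ HD k (Pi.single s d : Fin 4 → ℤ) := by
  refine ⟨g, l ^ p, Pi.single s m, Pi.single s (p * 1), pow_ne_zero p hl, hg, hom_pow hl' p, ?_, ?_⟩
  · intro t
    by_cases h : t = s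
    · subst h
      simp only [Pi.single_eq_same, mul_one]
      exact hd
    · simp [Pi.single_eq_of_ne h]
  · rw [map_pow]

theorem mem_Dn {g l h : SS k} (hl : l ≠ 0) (hlh : l ∣ h) (p : ℕ) :
    al k g / al k l ^ p ∈ Dn k h := by
  obtain ⟨q, rfl⟩ := hlh
  refine ⟨p, g * q ^ p, ?_⟩
  have h1 : al k l ≠ 0 := al_ne_zero k hl
  rw [map_mul, map_mul, map_pow, mul_pow]
  change al k g / al k l ^ p * (al k l ^ p * al k q ^ p) = al k g * al k q ^ p
  field_simp

theorem tw_sub (s : Fin 4) (a b : ℤ) :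
    (fun t => (Pi.single s a : Fin 4 → ℤ) t - (Pi.single s b : Fin 4 → ℤ) t) =
      (Pi.single s (a - b) : Fin 4 → ℤ) := by
  funext t
  by_cases ht : t = s
  · subst ht
    simp only [Pi.single_eq_same]
  · simp [Pi.single_eq_of_ne ht]

theorem tw_E (s : Fin 4) (b : Bool) :
    (EF k s).tw b = Pi.single s (if b = true then (-4 : ℤ) else 0) := by
  cases b
  · change (0 : Fin 4 → ℤ) = Pi.single s 0
    rw [Pi.single_zero]
  · rfl

/-- a condition on an element: degree and denominators -/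
def Ok (h : SS k) (s : Fin 4) (d : ℤ) (z : LL k) : Prop :=
  z ∈ HD k (Pi.single s d : Fin 4 → ℤ) ∧ z ∈ Dn k h

theorem Ok.zero (h : SS k) (s : Fin 4) (d : ℤ) : Ok h s d 0 :=
  ⟨Submodule.zero_mem _, Subalgebra.zero_mem _⟩

theorem Ok.quot {h l : SS k} {s : Fin 4} (hl0 : l ≠ 0) (hdiv : l ∣ h)
    (hlh : IsWeightedHomogeneous wt l (Pi.single s 1 : Fin 4 → ℕ)) {g : SS k} {m : ℕ}
    (hg : IsWeightedHomogeneous wt g (Pi.single s m : Fin 4 → ℕ)) (p : ℕ) {d : ℤ}
    (hd : (m : ℤ) - p = d) {z : LL k} (hz : z = al k g / al k l ^ p) : Ok h s d z := by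
  rw [hz]
  exact ⟨mem_HD hl0 hg hlh hd, mem_Dn hl0 hdiv p⟩

theorem eps_Ok (h : SS k) (s : Fin 4) (i : Fin 8) (j : Bool) :
    Ok h s (qtw i - if j = true then (-4 : ℤ) else 0)
      (qeps (al k (X (s, false))) (al k (X (s, true))) i j) ∧
    (qeps (al k (X (s, false))) (al k (X (s, true))) i j ≠ 0 → qgr i = 0) := by
  have memε : ∀ g : SS k, ∀ m : ℕ, IsWeightedHomogeneous wt g (Pi.single s m : Fin 4 → ℕ) →
      ∀ z : LL k, z = al k g → Ok h s m z := by
    rintro g m hg z rfl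
    refine ⟨?_, ⟨0, g, by simp⟩⟩
    have h1 := mem_HD (p := 0) (d := m) (X_ne_zero (s, false)) hg (hom_X (k := k) s false) (by simp)
    rwa [pow_zero, div_one] at h1
  have h1 := memε 1 0 (by rw [← C_1]; exact hom_C 1 s) 1 (by simp [al])
  have h2 := memε _ _ (hom_pow (hom_X (k := k) s false) 3) (al k (X (s, false)) ^ 3) (by simp [al])
  have h3 := memε _ _ (hom_mul (hom_pow (hom_X (k := k) s false) 2) (hom_X s true))
    (al k (X (s, false)) ^ 2 * al k (X (s, true))) (by simp [al])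
  have h4 := memε _ _ (hom_mul (hom_X (k := k) s false) (hom_pow (hom_X s true) 2))
    (al k (X (s, false)) * al k (X (s, true)) ^ 2) (by simp [al])
  have h5 := memε _ _ (hom_pow (hom_X (k := k) s true) 3) (al k (X (s, true)) ^ 3) (by simp [al])
  have hz := fun d => Ok.zero h s d
  fin_cases i <;> cases j
  · exact ⟨h1, fun _ => rfl⟩
  · exact ⟨hz _, fun hne => absurd rfl hne⟩
  · exact ⟨hz _, fun hne => absurd rfl hne⟩
  · exact ⟨h2, fun _ => rfl⟩
  · exact ⟨hz _, fun hne => absurd rfl hne⟩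
  · exact ⟨h3, fun _ => rfl⟩
  · exact ⟨hz _, fun hne => absurd rfl hne⟩
  · exact ⟨h4, fun _ => rfl⟩
  · exact ⟨hz _, fun hne => absurd rfl hne⟩
  · exact ⟨h5, fun _ => rfl⟩
  all_goals exact ⟨hz _, fun hne => absurd rfl hne⟩

/-- the images of constants -/
def ph (k : Type u) [Field k] : k →+* LL k := (algebraMap (SS k) (LL k)).comp C

theorem r_Ok {h l : SS k} {s : Fin 4} (κ : k) (hl : l = X (s, false) + C κ * X (s, true))
    (hl0 : l ≠ 0) (hdiv : l ∣ h)
    (hlh : IsWeightedHomogeneous wt l (Pi.single s 1 : Fin 4 → ℕ)) (i : Bool) (j : Fin 8) :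
    Ok h s ((if i = true then (-4 : ℤ) else 0) - qtw j)
      (qr (al k (X (s, false))) (al k (X (s, true))) (ph k κ) i j) ∧
    (qr (al k (X (s, false))) (al k (X (s, true))) (ph k κ) i j ≠ 0 → 0 = qgr j) := by
  have hal : al k (X (s, false)) + ph k κ * al k (X (s, true)) = al k l := by
    rw [hl, ph]
    simp [al]
  have h3 : ph k 3 = 3 := map_ofNat (ph k) 3
  have hq : ∀ a : k, ∀ z : LL k, z = ph k a / al k l ^ 3 → Ok h s (-3) z := fun a z hz =>
    Ok.quot hl0 hdiv hlh (hom_C a s) 3 (by norm_num) hz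
  have h0 : Ok h s 0 (1 : LL k) := by
    refine Ok.quot hl0 hdiv hlh (hom_C 1 s) 0 (by simp) ?_
    simp [al]
  have h1 : Ok h s (-3) (qr (al k (X (s, false))) (al k (X (s, true))) (ph k κ) true 1) := by
    refine hq 1 _ ?_
    change 1 / (al k (X (s, false)) + ph k κ * al k (X (s, true))) ^ 3 = _
    rw [hal, map_one]
  have h2 : Ok h s (-3) (qr (al k (X (s, false))) (al k (X (s, true))) (ph k κ) true 2) := by
    refine hq (3 * κ) _ ?_
    change 3 * ph k κ / (al k (X (s, false)) + ph k κ * al k (X (s, true))) ^ 3 = _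
    rw [hal, map_mul, h3]
  have h4 : Ok h s (-3) (qr (al k (X (s, false))) (al k (X (s, true))) (ph k κ) true 3) := by
    refine hq (3 * κ ^ 2) _ ?_
    change 3 * ph k κ ^ 2 / (al k (X (s, false)) + ph k κ * al k (X (s, true))) ^ 3 = _
    rw [hal, map_mul, h3, map_pow]
  have h5 : Ok h s (-3) (qr (al k (X (s, false))) (al k (X (s, true))) (ph k κ) true 4) := by
    refine hq (κ ^ 3) _ ?_
    change ph k κ ^ 3 / (al k (X (s, false)) + ph k κ * al k (X (s, true))) ^ 3 = _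
    rw [hal, map_pow]
  have hz := fun d => Ok.zero h s d
  cases i <;> fin_cases j
  · exact ⟨h0, fun _ => rfl⟩
  · exact ⟨hz _, fun hne => absurd rfl hne⟩
  · exact ⟨hz _, fun hne => absurd rfl hne⟩
  · exact ⟨hz _, fun hne => absurd rfl hne⟩
  · exact ⟨hz _, fun hne => absurd rfl hne⟩
  · exact ⟨hz _, fun hne => absurd rfl hne⟩
  · exact ⟨hz _, fun hne => absurd rfl hne⟩
  · exact ⟨hz _, fun hne => absurd rfl hne⟩
  · exact ⟨hz _, fun hne => absurd rfl hne⟩
  · exact ⟨h1, fun _ => rfl⟩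
  · exact ⟨h2, fun _ => rfl⟩
  · exact ⟨h4, fun _ => rfl⟩
  · exact ⟨h5, fun _ => rfl⟩
  · exact ⟨hz _, fun hne => absurd rfl hne⟩
  · exact ⟨hz _, fun hne => absurd rfl hne⟩
  · exact ⟨hz _, fun hne => absurd rfl hne⟩

theorem t_Ok {h l : SS k} {s : Fin 4} (κ : k) (hl : l = X (s, false) + C κ * X (s, true))
    (hl0 : l ≠ 0) (hdiv : l ∣ h)
    (hlh : IsWeightedHomogeneous wt l (Pi.single s 1 : Fin 4 → ℕ)) (i j : Fin 8) :
    Ok h s (qtw i - qtw j)
      (qt (al k (X (s, false))) (al k (X (s, true))) (ph k κ) i j) ∧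
    (qt (al k (X (s, false))) (al k (X (s, true))) (ph k κ) i j ≠ 0 → qgr i = qgr j + -1) := by
  have hal : al k (X (s, false)) + ph k κ * al k (X (s, true)) = al k l := by
    rw [hl, ph]
    simp [al]
  rcases q_cases (ph k κ) i j with ⟨h1, h2, h3⟩ | ⟨h1, h2⟩
  · have h4 : qt (al k (X (s, false))) (al k (X (s, true))) (ph k κ) i j = 0 := by
      unfold qt
      rw [Matrix.of_apply, h1, h2, h3]
      simp
    rw [h4]
    exact ⟨Ok.zero h s _, fun hne => absurd rfl hne⟩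
  · have h5 : qtw i - qtw j = -1 := by omega
    rw [h5]
    refine ⟨Ok.quot (m := 2) (g := C (qA κ i j) * X (s, false) ^ 2 +
          C (qB κ i j) * (X (s, false) * X (s, true)) + C (qC κ i j) * X (s, true) ^ 2)
          hl0 hdiv hlh ?_ 3 (by norm_num) ?_, fun _ => by omega⟩
    · refine hom_add (hom_add ?_ ?_) ?_
      · have h6 := hom_mul (hom_C (qA κ i j) s) (hom_pow (hom_X (k := k) s false) 2)
        simpa using h6
      · have h6 := hom_mul (hom_C (qB κ i j) s) (hom_mul (hom_X (k := k) s false) (hom_X s true))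
        simpa using h6
      · have h6 := hom_mul (hom_C (qC κ i j) s) (hom_pow (hom_X (k := k) s true) 2)
        simpa using h6
    · unfold qt
      rw [Matrix.of_apply, qA_map, qB_map, qC_map, hal]
      simp only [al, map_add, map_mul, map_pow]
      rfl

theorem facHEq : FacHEq.{u} := by
  intro k _ s κ h hh hdiv
  set l : SS k := X (s, false) + C κ * X (s, true) with hl
  have hl0 : l ≠ 0 := fun h0 => hh (zero_dvd_iff.1 (h0 ▸ hdiv))
  have hlh : IsWeightedHomogeneous wt l (Pi.single s 1 : Fin 4 → ℕ) := by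
    refine hom_add (hom_X s false) ?_
    have h1 := hom_mul (hom_C κ s) (hom_X s true)
    rwa [zero_add] at h1
  have hal : al k (X (s, false)) + ph k κ * al k (X (s, true)) = al k l := by
    rw [hl, ph]
    simp [al]
  have hxy : al k (X (s, false)) + ph k κ * al k (X (s, true)) ≠ 0 := by
    rw [hal]
    exact al_ne_zero k hl0
  have hdm : dmL (QF k s) = qdm (al k (X (s, false))) (al k (X (s, true))) := by
    ext i j
    change al k (qdm (X (s, false)) (X (s, true)) i j) = qdm (al k (X (s, false))) (al k (X (s, true))) i j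
    fin_cases i <;> fin_cases j <;> simp [qdm, al]
  have hdm0 : dmL (EF k s) = 0 := by
    ext i j
    change al k (0 : SS k) = (0 : LL k)
    simp [al]
  have e1 : ∀ (i : Fin 8) (j : Bool), (fun t => (QF k s).tw i t - (EF k s).tw j t) =
      (Pi.single s (qtw i - if j = true then (-4 : ℤ) else 0) : Fin 4 → ℤ) := by
    intro i j
    rw [← tw_sub, tw_E]
    rfl
  have e2 : ∀ (i : Bool) (j : Fin 8), (fun t => (EF k s).tw i t - (QF k s).tw j t) =
      (Pi.single s ((if i = true then (-4 : ℤ) else 0) - qtw j) : Fin 4 → ℤ) := by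
    intro i j
    rw [← tw_sub, tw_E]
    rfl
  have e3 : ∀ (i j : Fin 8), (fun t => (QF k s).tw i t - (QF k s).tw j t) =
      (Pi.single s (qtw i - qtw j) : Fin 4 → ℤ) := by
    intro i j
    rw [← tw_sub]
    rfl
  refine ⟨?_, ?_, qr (al k (X (s, false))) (al k (X (s, true))) (ph k κ),
    qt (al k (X (s, false))) (al k (X (s, true))) (ph k κ), ?_, ?_, ?_, ?_, ?_⟩
  · intro i j
    obtain ⟨⟨h1, h2⟩, h3⟩ := eps_Ok h s i j
    exact ⟨(congrArg (fun d => qeps (al k (X (s, false))) (al k (X (s, true))) i j ∈ HD k d)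
      (e1 i j)).mpr h1, h2, fun hne => h3 hne⟩
  · refine Eq.trans ?_ (Eq.trans (qdm_qeps (al k (X (s, false))) (al k (X (s, true)))).symm ?_)
    · exact (congrArg (fun M : Matrix Bool Bool (LL k) =>
        qeps (al k (X (s, false))) (al k (X (s, true))) * M) hdm0).trans (Matrix.mul_zero _)
    · exact congrArg (fun M : Matrix (Fin 8) (Fin 8) (LL k) =>
        M * qeps (al k (X (s, false))) (al k (X (s, true)))) hdm.symm
  · intro i j
    obtain ⟨⟨h1, h2⟩, h3⟩ := r_Ok κ hl hl0 hdiv hlh i j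
    exact ⟨(congrArg (fun d => qr (al k (X (s, false))) (al k (X (s, true))) (ph k κ) i j ∈ HD k d)
      (e2 i j)).mpr h1, h2, fun hne => (h3 hne).trans (add_zero _).symm⟩
  · intro i j
    obtain ⟨⟨h1, h2⟩, h3⟩ := t_Ok κ hl hl0 hdiv hlh i j
    exact ⟨(congrArg (fun d => qt (al k (X (s, false))) (al k (X (s, true))) (ph k κ) i j ∈ HD k d)
      (e3 i j)).mpr h1, h2, fun hne => h3 hne⟩
  · refine Eq.trans ?_ (Eq.trans (qr_qdm (al k (X (s, false))) (al k (X (s, true))) (ph k κ)) ?_)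
    · exact congrArg (fun M : Matrix (Fin 8) (Fin 8) (LL k) =>
        qr (al k (X (s, false))) (al k (X (s, true))) (ph k κ) * M) hdm
    · exact ((congrArg (fun M : Matrix Bool Bool (LL k) =>
        M * qr (al k (X (s, false))) (al k (X (s, true))) (ph k κ)) hdm0).trans
          (Matrix.zero_mul _)).symm
  · exact qr_qeps _ _ _ hxy
  · refine (q_homotopy _ _ _ hxy).trans ?_
    exact congrArg (fun M : Matrix (Fin 8) (Fin 8) (LL k) =>
      M * qt (al k (X (s, false))) (al k (X (s, true))) (ph k κ) +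
        qt (al k (X (s, false))) (al k (X (s, true))) (ph k κ) * M) hdm.symm

end

end Pool.Agent.Helper36.RZ
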