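import Pool.Agent.Helper17.RZ.St1

/-!
# Project RZ, module A9: the form of the example is ramified nowhere
-/

set_option autoImplicit false

namespace Pool.Agent.Helper36.RZ

open Pool.Agent.Helper17.RZ

universe u

section basics

variable {K : Type u} [Field K] (V : ZVal K)

lemma v_one : V.v 1 = 0 := by
  have := V.mul' 1 1 one_ne_zero one_ne_zero
  rw [mul_one] at this
  omega

lemma v_sq {x : K} (hx : x ≠ 0) : V.v (x ^ 2) = 2 * V.v x := by
  rw [sq, V.mul' x x hx hx]; ring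

lemma v_neg_one : V.v (-1) = 0 := by
  have h : V.v ((-1 : K) ^ 2) = 2 * V.v (-1) := v_sq V (neg_ne_zero.mpr one_ne_zero)
  rw [neg_one_sq, v_one] at h
  omega

lemma v_neg {x : K} (hx : x ≠ 0) : V.v (-x) = V.v x := by
  have h := V.mul' (-1) x (neg_ne_zero.mpr one_ne_zero) hx
  rw [v_neg_one, neg_one_mul] at h
  omega

lemma v_inv {x : K} (hx : x ≠ 0) : V.v x⁻¹ = - V.v x := by
  have h := V.mul' x x⁻¹ hx (inv_ne_zero hx)
  rw [mul_inv_cancel₀ hx, v_one] at h
  omega

variable {V}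

lemma ge_of_le {n m : ℤ} (h : m ≤ n) {x : K} (hx : V.Ge n x) : V.Ge m x :=
  hx.imp id (fun h' => le_trans h h')

lemma ge_neg {n : ℤ} {x : K} (hx : V.Ge n x) : V.Ge n (-x) := by
  by_cases h0 : x = 0
  · exact Or.inl (by rw [h0, neg_zero])
  · refine Or.inr ?_
    rw [v_neg V h0]
    exact hx.resolve_left h0

lemma ge_add {n : ℤ} {x y : K} (hx : V.Ge n x) (hy : V.Ge n y) : V.Ge n (x + y) := by
  by_cases h : x + y = 0
  · exact Or.inl h
  by_cases hx0 : x = 0
  · subst hx0; rw [zero_add]; exact hy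
  by_cases hy0 : y = 0
  · subst hy0; rw [add_zero]; exact hx
  exact Or.inr (le_trans (le_min (hx.resolve_left hx0) (hy.resolve_left hy0)) (V.add' x y hx0 hy0 h))

lemma ge_sub {n : ℤ} {x y : K} (hx : V.Ge n x) (hy : V.Ge n y) : V.Ge n (x - y) := by
  rw [sub_eq_add_neg]; exact ge_add hx (ge_neg hy)

lemma ge_mul {n m : ℤ} {x y : K} (hx : V.Ge n x) (hy : V.Ge m y) : V.Ge (n + m) (x * y) := by
  by_cases hx0 : x = 0
  · exact Or.inl (by rw [hx0, zero_mul])
  by_cases hy0 : y = 0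
  · exact Or.inl (by rw [hy0, mul_zero])
  refine Or.inr ?_
  rw [V.mul' x y hx0 hy0]
  exact add_le_add (hx.resolve_left hx0) (hy.resolve_left hy0)

lemma ge_self (x : K) : V.Ge (V.v x) x := Or.inr le_rfl

lemma ge_zero_one : V.Ge 0 (1 : K) := Or.inr (by rw [v_one])

/-- a one-unit is a unit -/
lemma unit_of_ge {w : K} (h : V.Ge 1 (w - 1)) : w ≠ 0 ∧ V.v w = 0 := by
  have hw : w ≠ 0 := by
    rintro rfl
    have h1 : V.Ge 1 (-1 : K) := by simpa using h
    have := h1.resolve_left (neg_ne_zero.mpr one_ne_zero)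
    rw [v_neg_one] at this
    omega
  refine ⟨hw, ?_⟩
  have h0 : V.Ge 0 w := by
    have := ge_add (ge_of_le (by norm_num) h : V.Ge 0 (w - 1)) (ge_zero_one (V := V))
    rwa [sub_add_cancel] at this
  have h0' := h0.resolve_left hw
  by_contra hne
  have hge : V.Ge 1 w := Or.inr (by omega)
  have h1 : V.Ge 1 (1 : K) := by
    have := ge_sub hge h
    rwa [sub_sub_cancel] at this
  have := h1.resolve_left one_ne_zero
  rw [v_one] at this
  omega

variable (V)

/-- `x` is a square times a one-unit -/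
def Gd (x : K) : Prop := x ≠ 0 ∧ ∃ y : K, y ≠ 0 ∧ V.Ge 1 (y ^ 2 * x - 1)

variable {V}

lemma Gd.mul {x y : K} (hx : Gd V x) (hy : Gd V y) : Gd V (x * y) := by
  obtain ⟨hx0, a, ha, hA⟩ := hx
  obtain ⟨hy0, b, hb, hB⟩ := hy
  refine ⟨mul_ne_zero hx0 hy0, a * b, mul_ne_zero ha hb, ?_⟩
  have h1 : V.Ge 1 ((a ^ 2 * x - 1) * (b ^ 2 * y - 1)) := ge_of_le (by norm_num) (ge_mul hA hB)
  have h2 := ge_add (ge_add h1 hA) hB
  have h3 : (a * b) ^ 2 * (x * y) - 1 =
      (a ^ 2 * x - 1) * (b ^ 2 * y - 1) + (a ^ 2 * x - 1) + (b ^ 2 * y - 1) := by ring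
  rw [h3]; exact h2

lemma gd_sq {z : K} (hz : z ≠ 0) : Gd V (z ^ 2) := by
  refine ⟨pow_ne_zero 2 hz, z⁻¹, inv_ne_zero hz, Or.inl ?_⟩
  field_simp
  ring

lemma gd_one : Gd V (1 : K) := by
  have := gd_sq (V := V) (one_ne_zero (α := K))
  rwa [one_pow] at this

/-- divide by a square -/
lemma Gd.of_mul_sq {x z : K} (hz : z ≠ 0) (h : Gd V (x * z ^ 2)) : Gd V x := by
  have h1 := h.mul (gd_sq (V := V) (inv_ne_zero hz))
  have h2 : x * z ^ 2 * (z⁻¹) ^ 2 = x := by field_simp
  rwa [h2] at h1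

/-- `x ~ y` when `x y` is a square -/
lemma Gd.trans {x y r : K} (hr : r ≠ 0) (h : x * y = r ^ 2) (hx : Gd V x) : Gd V y := by
  have h1 : Gd V (x * r ^ 2) := hx.mul (gd_sq hr)
  rw [← h] at h1
  have h2 : x * (x * y) = y * x ^ 2 := by ring
  rw [h2] at h1
  exact h1.of_mul_sq hx.1

/-- Newton -/
lemma newton_step (h2 : (2 : K) ≠ 0) (hv2 : V.v 2 = 0) {x y : K} (hy : y ≠ 0) {n : ℕ} (hn : 1 ≤ n)
    (h : V.Ge (n : ℤ) (y ^ 2 * x - 1)) :
    ∃ y' : K, y' ≠ 0 ∧ V.Ge ((n + 1 : ℕ) : ℤ) (y' ^ 2 * x - 1) := by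
  set e := y ^ 2 * x - 1 with he
  have hx : y ^ 2 * x = 1 + e := by rw [he]; ring
  have hne : (2 : K) - e ≠ 0 := by
    intro h0
    have h1 : e = 2 := (sub_eq_zero.mp h0).symm
    rw [h1] at h
    have := h.resolve_left h2
    rw [hv2] at this
    omega
  refine ⟨y * (2 - e) / 2, div_ne_zero (mul_ne_zero hy hne) h2, ?_⟩
  have hv4 : V.Ge 0 (((2 : K)⁻¹) ^ 2) := Or.inr (by rw [v_sq V (inv_ne_zero h2), v_inv V h2, hv2]; norm_num)
  have hge2 : V.Ge 0 (2 : K) := Or.inr (by rw [hv2])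
  have hge3 : V.Ge 0 (3 : K) := by
    have := ge_add hge2 (ge_zero_one (V := V))
    have h3 : (2 : K) + 1 = 3 := by norm_num
    rwa [h3] at this
  have h0e : V.Ge 0 e := ge_of_le (by omega) h
  have hee : V.Ge ((n : ℤ) + n) (e * e) := ge_mul h h
  have hfac : V.Ge 0 (e - 3) := ge_sub h0e hge3
  have hprod := ge_mul (ge_mul hee hfac) hv4
  have hid : (y * (2 - e) / 2) ^ 2 * x - 1 = e * e * (e - 3) * ((2 : K)⁻¹) ^ 2 := by
    have h1 : (y * (2 - e) / 2) ^ 2 * x = (y ^ 2 * x) * (2 - e) ^ 2 * ((2 : K)⁻¹) ^ 2 := by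
      rw [div_eq_mul_inv]; ring
    have h4 : (2 : K) ^ 2 * ((2 : K)⁻¹) ^ 2 = 1 := by
      rw [← mul_pow, mul_inv_cancel₀ h2, one_pow]
    rw [h1, hx]
    linear_combination h4
  rw [hid]
  refine ge_of_le ?_ hprod
  push_cast
  omega

lemma newton (h2 : (2 : K) ≠ 0) (hv2 : V.v 2 = 0) {x : K} (hx : Gd V x) (n : ℕ) (hn : 1 ≤ n) :
    ∃ y : K, y ≠ 0 ∧ V.Ge (n : ℤ) (y ^ 2 * x - 1) := by
  induction n, hn using Nat.le_induction with
  | base => obtain ⟨-, y, hy, h⟩ := hx; exact ⟨y, hy, by simpa using h⟩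
  | succ n hn ih => obtain ⟨y, hy, h⟩ := ih; exact newton_step h2 hv2 hy hn h

lemma approx (h2 : (2 : K) ≠ 0) (hv2 : V.v 2 = 0) {x : K} (hx : Gd V x) (N : ℤ) :
    ∃ y : K, y ≠ 0 ∧ V.Ge 1 (y ^ 2 * x - 1) ∧ V.Ge N (y ^ 2 * x - 1) := by
  obtain ⟨y, hy, h⟩ := newton h2 hv2 hx (max 1 N.toNat) (le_max_left _ _)
  refine ⟨y, hy, ge_of_le ?_ h, ge_of_le ?_ h⟩
  · exact_mod_cast le_max_left 1 N.toNat
  · have := Int.self_le_toNat N
    have h3 : ((N.toNat : ℕ) : ℤ) ≤ ((max 1 N.toNat : ℕ) : ℤ) := by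
      exact_mod_cast le_max_right 1 N.toNat
    omega

end basics

section steps

variable {K : Type u} [Field K] {V : ZVal K}

/-- `b - c = 1`: the two valuations, when one is negative, agree -/
lemma v_of_neg {b c : K} (hb : b ≠ 0) (hc : c ≠ 0) (h : b - c = 1) (hn : V.v b < 0) :
    V.v c = V.v b := by
  have hc' : c = b + (-1) := by linear_combination -h
  have hb' : b = c + 1 := by linear_combination h
  have h1 : min (V.v b) (V.v (-1)) ≤ V.v (b + (-1)) :=
    V.add' b (-1) hb (neg_ne_zero.mpr one_ne_zero) (by rw [← hc']; exact hc)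
  have h2 : min (V.v c) (V.v 1) ≤ V.v (c + 1) := V.add' c 1 hc one_ne_zero (by rw [← hb']; exact hb)
  rw [← hc', v_neg_one] at h1
  rw [← hb', v_one] at h2
  rcases min_le_iff.mp h1 with h1 | h1 <;> rcases min_le_iff.mp h2 with h2 | h2 <;> omega

lemma v_of_neg' {b c : K} (hb : b ≠ 0) (hc : c ≠ 0) (h : b - c = 1) (hn : V.v c < 0) :
    V.v b = V.v c := by
  have hc' : c = b + (-1) := by linear_combination -h
  have hb' : b = c + 1 := by linear_combination h
  have h1 : min (V.v b) (V.v (-1)) ≤ V.v (b + (-1)) :=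
    V.add' b (-1) hb (neg_ne_zero.mpr one_ne_zero) (by rw [← hc']; exact hc)
  have h2 : min (V.v c) (V.v 1) ≤ V.v (c + 1) := V.add' c 1 hc one_ne_zero (by rw [← hb']; exact hb)
  rw [← hc', v_neg_one] at h1
  rw [← hb', v_one] at h2
  rcases min_le_iff.mp h1 with h1 | h1 <;> rcases min_le_iff.mp h2 with h2 | h2 <;> omega

lemma gd_c {b c i : K} (hi : i ^ 2 = -1) (hb : b ≠ 0) (hc : c ≠ 0) (h : b - c = 1)
    (ho : Odd (V.v b)) (he : ¬ Odd (V.v c)) : Gd V c := by
  have hi0 : i ≠ 0 := by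
    rintro rfl
    rw [zero_pow two_ne_zero] at hi
    exact one_ne_zero (neg_eq_zero.mp hi.symm)
  have hpos : 1 ≤ V.v b := by
    by_contra hcon
    have hlt : V.v b < 0 := by
      rcases ho with ⟨k, hk⟩; omega
    rw [v_of_neg hb hc h hlt] at he
    exact he ho
  refine ⟨hc, i, hi0, ?_⟩
  have h1 : i ^ 2 * c - 1 = - b := by linear_combination c * hi + h
  rw [h1]
  exact ge_neg (Or.inr hpos)

lemma gd_b {b c : K} (hb : b ≠ 0) (hc : c ≠ 0) (h : b - c = 1)
    (ho : ¬ Odd (V.v b)) (he : Odd (V.v c)) : Gd V b := by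
  have hpos : 1 ≤ V.v c := by
    by_contra hcon
    have hlt : V.v c < 0 := by
      rcases he with ⟨k, hk⟩; omega
    rw [v_of_neg' hb hc h hlt] at ho
    exact ho he
  refine ⟨hb, 1, one_ne_zero, ?_⟩
  have h1 : (1 : K) ^ 2 * b - 1 = c := by linear_combination h
  rw [h1]
  exact Or.inr hpos

lemma gd_bc {b c : K} (hb : b ≠ 0) (hc : c ≠ 0) (h : b - c = 1)
    (ho : Odd (V.v b)) (he : Odd (V.v c)) : Gd V (b * c) := by
  have hneg : V.v c < 0 := by
    by_contra hcon
    have hpos : 1 ≤ V.v c := by rcases he with ⟨k, hk⟩; omega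
    have hge : V.Ge 1 (b - 1) := by
      have : b - 1 = c := by linear_combination h
      rw [this]; exact Or.inr hpos
    have := (unit_of_ge hge).2
    rw [this] at ho
    rcases ho with ⟨k, hk⟩; omega
  refine ⟨mul_ne_zero hb hc, c⁻¹, inv_ne_zero hc, ?_⟩
  have h1 : (c⁻¹) ^ 2 * (b * c) - 1 = c⁻¹ := by
    have hb' : b = c + 1 := by linear_combination h
    rw [hb']
    field_simp
    ring
  rw [h1]
  refine Or.inr ?_
  rw [v_inv V hc]
  omega

end steps

section comb

/-- exponent vectors of `b s` and `c s` -/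
def J : Fin 4 → Fin 4 → Bool :=
  ![![true, false, false, false], ![false, false, true, false], ![true, false, true, false],
    ![true, false, false, true]]
def M : Fin 4 → Fin 4 → Bool :=
  ![![false, true, false, false], ![false, false, false, true], ![false, true, false, true],
    ![false, true, true, true]]

def vx (e f : Fin 4 → Bool) : Fin 4 → Bool := fun j => xor (e j) (f j)

def lam (l e : Fin 4 → Bool) : Bool :=
  xor (xor (l 0 && e 0) (l 1 && e 1)) (xor (l 2 && e 2) (l 3 && e 3))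

/-- the element known to be good at `s` -/
def ww (l : Fin 4 → Bool) (s : Fin 4) : Fin 4 → Bool :=
  vx (if lam l (M s) then J s else fun _ => false) (if lam l (J s) then M s else fun _ => false)

def pick (l : Fin 4 → Bool) (S : Fin 4 → Bool) (s : Fin 4) : Fin 4 → Bool :=
  if S s then ww l s else fun _ => false

lemma comb : ∀ l : Fin 4 → Bool, l ≠ (fun _ => false) →
    ∃ S : Fin 4 → Bool,
      (vx (vx (pick l S 0) (pick l S 1)) (vx (pick l S 2) (pick l S 3)) = J 0 ∨
       vx (vx (pick l S 0) (pick l S 1)) (vx (pick l S 2) (pick l S 3)) = J 1 ∨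
       vx (vx (pick l S 0) (pick l S 1)) (vx (pick l S 2) (pick l S 3)) = vx (J 0) (J 1)) := by
  decide +kernel

end comb

section el

variable {K : Type u} [Field K] {V : ZVal K}

def el (g : Fin 4 → K) (e : Fin 4 → Bool) : K := ∏ j, (if e j then g j else 1)

lemma el_ne {g : Fin 4 → K} (hg : ∀ j, g j ≠ 0) (e : Fin 4 → Bool) : el g e ≠ 0 := by
  unfold el
  refine Finset.prod_ne_zero_iff.mpr (fun j _ => ?_)
  split_ifs
  · exact hg j
  · exact one_ne_zero

lemma el_zero (g : Fin 4 → K) : el g (fun _ => false) = 1 := by simp [el]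

lemma el_vx (g : Fin 4 → K) (e f : Fin 4 → Bool) :
    el g e * el g f = el g (vx e f) * (el g (fun j => e j && f j)) ^ 2 := by
  unfold el vx
  rw [← Finset.prod_pow, ← Finset.prod_mul_distrib, ← Finset.prod_mul_distrib]
  refine Finset.prod_congr rfl (fun j _ => ?_)
  cases he : e j <;> cases hf : f j <;> simp [he, hf, sq]

lemma gs_vx {g : Fin 4 → K} (hg : ∀ j, g j ≠ 0) {e f : Fin 4 → Bool}
    (he : Gd V (el g e)) (hf : Gd V (el g f)) : Gd V (el g (vx e f)) := by
  have h := he.mul hf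
  rw [el_vx] at h
  exact h.of_mul_sq (el_ne hg _)

lemma gs_vx' {g : Fin 4 → K} (hg : ∀ j, g j ≠ 0) {e f : Fin 4 → Bool}
    (h : Gd V (el g e * el g f)) : Gd V (el g (vx e f)) := by
  rw [el_vx] at h
  exact h.of_mul_sq (el_ne hg _)

/-- parity of the valuation -/
lemma v_el {g : Fin 4 → K} (hg : ∀ j, g j ≠ 0) (e : Fin 4 → Bool) :
    V.v (el g e) = ∑ j, (if e j then V.v (g j) else 0) := by
  have hprod : ∀ (s : Finset (Fin 4)) (f : Fin 4 → K), (∀ j, f j ≠ 0) →
      V.v (∏ j ∈ s, f j) = ∑ j ∈ s, V.v (f j) := by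
    intro s f hf
    induction s using Finset.induction_on with
    | empty => simp [v_one]
    | insert a s ha ih =>
      rw [Finset.prod_insert ha, Finset.sum_insert ha,
        V.mul' _ _ (hf a) (Finset.prod_ne_zero_iff.mpr fun j _ => hf j), ih]
  unfold el
  rw [hprod _ _ (fun j => by split_ifs; exacts [hg j, one_ne_zero])]
  refine Finset.sum_congr rfl (fun j _ => ?_)
  split_ifs
  · rfl
  · exact v_one V

lemma lam_iff {g : Fin 4 → K} (hg : ∀ j, g j ≠ 0) (l : Fin 4 → Bool)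
    (hl : ∀ j, l j = true ↔ Odd (V.v (g j))) (e : Fin 4 → Bool) :
    lam l e = true ↔ Odd (V.v (el g e)) := by
  rw [v_el hg, Fin.sum_univ_four]
  have key : ∀ j, (l j && e j) = true ↔ Odd (if e j then V.v (g j) else 0) := by
    intro j
    have := hl j
    cases hej : e j
    · simp
    · simpa using this
  have hadd : ∀ (p q : Bool) (x y : ℤ), (p = true ↔ Odd x) → (q = true ↔ Odd y) →
      ((xor p q) = true ↔ Odd (x + y)) := by
    intro p q x y hp hq
    rw [Int.odd_iff] at hp hq ⊢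
    cases p <;> cases q <;> simp at hp hq ⊢ <;> omega
  unfold lam
  rw [add_assoc (_ + _)]
  exact hadd _ _ _ _ (hadd _ _ _ _ (key 0) (key 1)) (hadd _ _ _ _ (key 2) (key 3))

end el

section main

variable {K : Type u} [Field K] {V : ZVal K}

/-- update of a diagonal form in one coordinate -/
lemma dg_update (a b c : K) (x : Fin 3 → K) (j : Fin 3) (z : K) :
    dg a b c (Function.update x j z) =
      dg a b c x - (![a, b, c] j) * x j ^ 2 + (![a, b, c] j) * z ^ 2 := by
  fin_cases j <;> simp [dg] <;> ring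

/-- all coefficients of even valuation: the form is not ramified -/
lemma even_case (h2 : (2 : K) ≠ 0) (hv2 : V.v 2 = 0) {a b c : K} (ha : a ≠ 0) (hb : b ≠ 0)
    (hc : c ≠ 0) (ea : ¬ Odd (V.v a)) (eb : ¬ Odd (V.v b)) (ec : ¬ Odd (V.v c)) :
    ¬ Ram V (dg a b c) := by
  classical
  rintro ⟨⟨C, hC⟩, x, y, hx, hy, hxy⟩
  set co : Fin 3 → K := ![a, b, c] with hco
  have hco0 : ∀ j, co j ≠ 0 := by intro j; fin_cases j <;> simp [hco, ha, hb, hc]
  have hcoe : ∀ j, ¬ Odd (V.v (co j)) := by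
    intro j
    fin_cases j
    · exact ea
    · exact eb
    · exact ec
  have key : ∀ z : Fin 3 → K, dg a b c z ≠ 0 → ¬ Odd (V.v (dg a b c z)) := by
    intro z hz hodd
    have hex : ∃ i, z i ≠ 0 := by
      by_contra hcon
      push Not at hcon
      exact hz (by simp [dg, hcon])
    set T : Fin 3 → K := fun j => co j * z j ^ 2 with hT
    have hTe : ∀ j, z j ≠ 0 → T j ≠ 0 ∧ ¬ Odd (V.v (T j)) := by
      intro j hj
      refine ⟨mul_ne_zero (hco0 j) (pow_ne_zero 2 hj), ?_⟩
      rw [hT]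
      simp only
      rw [V.mul' _ _ (hco0 j) (pow_ne_zero 2 hj), v_sq V hj]
      have := hcoe j
      rw [Int.odd_iff] at this ⊢
      omega
    obtain ⟨j, hj, hmin⟩ := Finset.exists_min_image (Finset.univ.filter (fun j => z j ≠ 0))
      (fun j => V.v (T j)) (by
        obtain ⟨i, hi⟩ := hex
        exact ⟨i, by simp [hi]⟩)
    have hzj : z j ≠ 0 := (Finset.mem_filter.mp hj).2
    have hge : ∀ i, V.Ge (V.v (T j)) (T i) := by
      intro i
      by_cases hi : z i = 0
      · exact Or.inl (by simp [hT, hi])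
      · exact Or.inr (hmin i (by simp [hi]))
    have hsum : dg a b c z = T 0 + T 1 + T 2 := by simp [dg, hT, hco]
    have hq : V.Ge (V.v (T j)) (dg a b c z) := by
      rw [hsum]; exact ge_add (ge_add (hge 0) (hge 1)) (hge 2)
    obtain ⟨hTj, hTje⟩ := hTe j hzj
    have hlt : V.v (T j) + 1 ≤ V.v (dg a b c z) := by
      have h1 := hq.resolve_left hz
      have h3 : V.v (T j) ≠ V.v (dg a b c z) := by
        intro h; rw [h] at hTje; exact hTje hodd
      omega
    set w : K := 1 - dg a b c z * (T j)⁻¹ with hw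
    have hw1 : V.Ge 1 (w - 1) := by
      have h1 : w - 1 = -(dg a b c z * (T j)⁻¹) := by rw [hw]; ring
      rw [h1]
      refine ge_neg (Or.inr ?_)
      rw [V.mul' _ _ hz (inv_ne_zero hTj), v_inv V hTj]
      omega
    obtain ⟨hw0, hvw⟩ := unit_of_ge hw1
    have hgd : Gd V w := ⟨hw0, 1, one_ne_zero, by simpa using hw1⟩
    obtain ⟨r, hr, hr1, hrN⟩ := approx h2 hv2 hgd (2 * V.v (z j) + C + 1 - V.v (T j))
    have hvr : V.v r = 0 := by
      have h1 := (unit_of_ge hr1).2
      rw [V.mul' _ _ (pow_ne_zero 2 hr) hw0, v_sq V hr, hvw] at h1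
      omega
    set z' : Fin 3 → K := Function.update z j (r * w * z j) with hz'
    have hz'j : z' j = r * w * z j := by rw [hz', Function.update_self]
    have hz'j0 : z' j ≠ 0 := by
      rw [hz'j]; exact mul_ne_zero (mul_ne_zero hr hw0) hzj
    have hvz' : V.v (z' j) = V.v (z j) := by
      rw [hz'j, V.mul' _ _ (mul_ne_zero hr hw0) hzj, V.mul' _ _ hr hw0, hvr, hvw]; ring
    obtain ⟨hq0, hqC⟩ := hC z' j hz'j0
    have hval : dg a b c z' = T j * (w * (r ^ 2 * w - 1)) := by
      rw [hz', dg_update]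
      have h1 : dg a b c z = T j * (1 - w) := by
        rw [hw]
        field_simp
        ring
      have h4 : (![a, b, c] j) * z j ^ 2 = T j := rfl
      have h5 : (![a, b, c] j) * (r * w * z j) ^ 2 = T j * (r * w) ^ 2 := by
        rw [← h4]; ring
      rw [h1, h4, h5]; ring
    have hgeN : V.Ge (V.v (T j) + (0 + (2 * V.v (z j) + C + 1 - V.v (T j)))) (dg a b c z') := by
      rw [hval]
      exact ge_mul (ge_self _) (ge_mul (Or.inr (by rw [hvw])) hrN)
    have := hgeN.resolve_left hq0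
    rw [hvz'] at hqC
    omega
  have h1 := key x hx
  have h3 := key y hy
  rw [Int.odd_iff] at h1 h3
  apply hxy
  omega

/-- one of the three square classes is good: the form is not ramified -/
lemma good_case (h2 : (2 : K) ≠ 0) (hv2 : V.v 2 = 0) {i β γ : K} (hi : i ^ 2 = -1)
    (hg : Gd V β ∨ Gd V γ ∨ Gd V (β * γ)) : ¬ Ram V (dg 1 (-β) (-γ)) := by
  rintro ⟨⟨C, hC⟩, -⟩
  rcases hg with hg | hg | hg
  · obtain ⟨y, hy, -, hN⟩ := approx h2 hv2 hg (C + 1)
    obtain ⟨h0, hle⟩ := hC ![1, y, 0] 0 (by simp)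
    have hval : dg 1 (-β) (-γ) ![1, y, 0] = -(y ^ 2 * β - 1) := by simp [dg]; ring
    have := ge_neg hN
    rw [← hval] at this
    have h3 := this.resolve_left h0
    simp only [Matrix.cons_val_zero, v_one] at hle
    omega
  · obtain ⟨y, hy, -, hN⟩ := approx h2 hv2 hg (C + 1)
    obtain ⟨h0, hle⟩ := hC ![1, 0, y] 0 (by simp)
    have hval : dg 1 (-β) (-γ) ![1, 0, y] = -(y ^ 2 * γ - 1) := by simp [dg]; ring
    have := ge_neg hN
    rw [← hval] at this
    have h3 := this.resolve_left h0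
    simp only [Matrix.cons_val_zero, v_one] at hle
    omega
  · obtain ⟨y, hy, -, hN⟩ := approx h2 hv2 hg (C + 1 - V.v γ)
    obtain ⟨h0, hle⟩ := hC ![0, i * γ * y, 1] 2 (by simp)
    have hval : dg 1 (-β) (-γ) ![0, i * γ * y, 1] = γ * (y ^ 2 * (β * γ) - 1) := by
      simp [dg]
      linear_combination (-β * γ ^ 2 * y ^ 2) * hi
    have := ge_mul (ge_self (V := V) γ) hN
    rw [← hval] at this
    have h3 := this.resolve_left h0
    have h4 : (![0, i * γ * y, 1] : Fin 3 → K) 2 = 1 := by simp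
    rw [h4, v_one] at hle
    omega

theorem unramK : UnramK.{u} := by
  intro K _ h2 i hi b c p hb hc hbc h0 h1 h3 h4 V hv2
  classical
  set g : Fin 4 → K := ![b 0, c 0, b 1, c 1] with hgdef
  have hg : ∀ j, g j ≠ 0 := by
    intro j; fin_cases j <;> simp [hgdef, hb, hc]
  set l : Fin 4 → Bool := fun j => decide (Odd (V.v (g j))) with hldef
  have hl : ∀ j, l j = true ↔ Odd (V.v (g j)) := by intro j; simp [hldef]
  by_cases hl0 : l = fun _ => false
  · -- all parities even
    have e0 : ¬ Odd (V.v (b 0)) := by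
      have : ¬ l 0 = true := by rw [hl0]; simp
      rw [hl] at this
      simpa [hgdef] using this
    have e1 : ¬ Odd (V.v (b 1)) := by
      have : ¬ l 2 = true := by rw [hl0]; simp
      rw [hl] at this
      simpa [hgdef] using this
    refine even_case h2 hv2 one_ne_zero (neg_ne_zero.mpr (hb 0)) (neg_ne_zero.mpr (hb 1)) ?_ ?_ ?_
    · rw [v_one]; simp
    · rw [v_neg V (hb 0)]; exact e0
    · rw [v_neg V (hb 1)]; exact e1
  · -- products being squares
    have hJ : ∀ s, ∃ r, r ≠ 0 ∧ b s * el g (J s) = r ^ 2 := by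
      intro s
      fin_cases s
      · exact ⟨b 0, hb 0, by simp [el, J, Fin.prod_univ_four, hgdef, sq]⟩
      · exact ⟨b 1, hb 1, by simp [el, J, Fin.prod_univ_four, hgdef, sq]⟩
      · refine ⟨p 0, ?_, ?_⟩
        · intro h; rw [h, zero_pow two_ne_zero] at h0
          exact mul_ne_zero (mul_ne_zero (hb 0) (hb 1)) (hb 2) h0
        · rw [← h0]; simp [el, J, Fin.prod_univ_four, hgdef]; ring
      · refine ⟨p 2, ?_, ?_⟩
        · intro h; rw [h, zero_pow two_ne_zero] at h3
          exact mul_ne_zero (mul_ne_zero (hb 0) (hc 1)) (hb 3) h3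
        · rw [← h3]; simp [el, J, Fin.prod_univ_four, hgdef]; ring
    have hM : ∀ s, ∃ r, r ≠ 0 ∧ c s * el g (M s) = r ^ 2 := by
      intro s
      fin_cases s
      · exact ⟨c 0, hc 0, by simp [el, M, Fin.prod_univ_four, hgdef, sq]⟩
      · exact ⟨c 1, hc 1, by simp [el, M, Fin.prod_univ_four, hgdef, sq]⟩
      · refine ⟨p 1, ?_, ?_⟩
        · intro h; rw [h, zero_pow two_ne_zero] at h1
          exact mul_ne_zero (mul_ne_zero (hc 0) (hc 1)) (hc 2) h1
        · rw [← h1]; simp [el, M, Fin.prod_univ_four, hgdef]; ring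
      · refine ⟨p 3, ?_, ?_⟩
        · intro h; rw [h, zero_pow two_ne_zero] at h4
          exact mul_ne_zero (mul_ne_zero (mul_ne_zero (hc 0) (hb 1)) (hc 1)) (hc 3) h4
        · rw [← h4]; simp [el, M, Fin.prod_univ_four, hgdef]; ring
    have hpar : ∀ (x y r : K), x ≠ 0 → y ≠ 0 → r ≠ 0 → x * y = r ^ 2 →
        (Odd (V.v x) ↔ Odd (V.v y)) := by
      intro x y r hx hy hr h
      have h5 : V.v (x * y) = V.v (r ^ 2) := by rw [h]
      rw [V.mul' _ _ hx hy, v_sq V hr] at h5
      rw [Int.odd_iff, Int.odd_iff]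
      omega
    have hlJ : ∀ s, lam l (J s) = true ↔ Odd (V.v (b s)) := by
      intro s
      obtain ⟨r, hr, h⟩ := hJ s
      rw [lam_iff hg l hl, hpar _ _ r (hb s) (el_ne hg _) hr h]
    have hlM : ∀ s, lam l (M s) = true ↔ Odd (V.v (c s)) := by
      intro s
      obtain ⟨r, hr, h⟩ := hM s
      rw [lam_iff hg l hl, hpar _ _ r (hc s) (el_ne hg _) hr h]
    have hww : ∀ s, Gd V (el g (ww l s)) := by
      intro s
      obtain ⟨r, hr, h⟩ := hJ s
      obtain ⟨r', hr', h'⟩ := hM s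
      unfold ww
      refine gs_vx' hg ?_
      cases hA : lam l (J s) <;> cases hB : lam l (M s)
      · simp only [Bool.false_eq_true, if_false]
        rw [el_zero, mul_one]; exact gd_one
      · simp only [Bool.false_eq_true, if_false, if_true]
        rw [el_zero, mul_one]
        have ho : ¬ Odd (V.v (b s)) := by rw [← hlJ, hA]; simp
        have he : Odd (V.v (c s)) := by rw [← hlM, hB]
        exact (gd_b (hb s) (hc s) (hbc s) ho he).trans hr h
      · simp only [Bool.false_eq_true, if_false, if_true]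
        rw [el_zero, one_mul]
        have ho : Odd (V.v (b s)) := by rw [← hlJ, hA]
        have he : ¬ Odd (V.v (c s)) := by rw [← hlM, hB]; simp
        exact (gd_c hi (hb s) (hc s) (hbc s) ho he).trans hr' h'
      · simp only [if_true]
        have ho : Odd (V.v (b s)) := by rw [← hlJ, hA]
        have he : Odd (V.v (c s)) := by rw [← hlM, hB]
        refine (gd_bc (hb s) (hc s) (hbc s) ho he).trans (mul_ne_zero hr hr') ?_
        linear_combination (c s * el g (M s)) * h + r ^ 2 * h'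
    obtain ⟨S, hS⟩ := comb l hl0
    have hpick : ∀ s, Gd V (el g (pick l S s)) := by
      intro s
      unfold pick
      split_ifs
      · exact hww s
      · rw [el_zero]; exact gd_one
    have htot : Gd V (el g (vx (vx (pick l S 0) (pick l S 1)) (vx (pick l S 2) (pick l S 3)))) :=
      gs_vx hg (gs_vx hg (hpick 0) (hpick 1)) (gs_vx hg (hpick 2) (hpick 3))
    have ej0 : el g (J 0) = b 0 := by simp [el, J, Fin.prod_univ_four, hgdef]
    have ej1 : el g (J 1) = b 1 := by simp [el, J, Fin.prod_univ_four, hgdef]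
    have ej01 : el g (vx (J 0) (J 1)) = b 0 * b 1 := by
      simp [el, J, vx, Fin.prod_univ_four, hgdef]
    refine good_case h2 hv2 hi ?_
    rcases hS with hS | hS | hS
    · rw [hS, ej0] at htot; exact Or.inl htot
    · rw [hS, ej1] at htot; exact Or.inr (Or.inl htot)
    · rw [hS, ej01] at htot; exact Or.inr (Or.inr htot)

end main

end Pool.Agent.Helper36.RZ
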