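import Pool.Agent.Helper17.RZ.St4
import Pool.Agent.Helper45.RZ.PPRat
import Pool.Agent.Helper46.RZ.Basic
import Pool.Agent.Helper11.RZ.StepPP
import Pool.Agent.Helper72.RZ.Gauss
import Pool.Agent.Helper28.RZ.NormForm
import Pool.Agent.Helper90.RZ.LocalSq
import Pool.Agent.Helper51.RZ.Padic
import Pool.Agent.Helper68.RZ.Lattice
import Pool.Agent.Helper36.RZ.UnramK
import Pool.Agent.Helper54.RZ.NoConic

/-!
# Project RZ (MP_77656e_ag), module D11: the function field of the example is not rational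
-/

set_option autoImplicit false

open MvPolynomial

namespace Pool.Agent.Helper36.RZ

open Pool.Agent.Helper17.RZ

universe u

noncomputable section

variable (k : Type u) [Field k]

/-- the substitutions act on letters by signs -/
theorem sb_lt (e : Fin 4 → Bool × Bool) (s : Fin 4) (c : Fin 5) :
    sb k e (lt k s c) = (lsg (e s) c : SS k) * lt k s c := by
  rcases h : e s with ⟨a, b⟩
  fin_cases c <;> cases a <;> cases b <;> simp [lt, lsg, sb_X, h] <;> ring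

theorem sb_fw (a : Fin 4) (w : GW) : sb k (code a) (fw k w.1) = fw k w.1 := by
  unfold fw
  rw [map_prod]
  simp only [sb_lt]
  rw [Finset.prod_mul_distrib]
  have h := w.2 a
  have h2 : ∏ s, ((lsg (code a s) (w.1 s) : ℤ) : SS k) = 1 := by
    rw [← Int.cast_prod, h, Int.cast_one]
  rw [h2, one_mul]

/-- elements of the function field are invariant -/
theorem ga_K0 (a : Fin 4) (x : LL k) (hx : x ∈ K0 k) : ga k a x = x := by
  refine IntermediateField.adjoin_induction k (p := fun y _ => ga k a y = y)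
    ?_ ?_ ?_ ?_ ?_ hx
  · rintro y ⟨v, w, rfl⟩
    rw [map_div₀]
    change ga k a (algebraMap (SS k) (LL k) (fw k v.1)) / ga k a (algebraMap (SS k) (LL k) (fw k w.1)) = _
    rw [ga_algebraMap, ga_algebraMap, sb_fw, sb_fw]
  · intro c
    exact (ga k a).commutes c
  · intro x y _ _ h1 h2
    rw [map_add, h1, h2]
  · intro x _ h1
    rw [map_inv₀, h1]
  · intro x y _ _ h1 h2
    rw [map_mul, h1, h2]

theorem div_mem (v w : Fin 4 → Fin 5) (hv : Good v) (hw : Good w) :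
    al k (fw k v) / al k (fw k w) ∈ K0 k :=
  IntermediateField.subset_adjoin k _ ⟨⟨v, hv⟩, ⟨w, hw⟩, rfl⟩

theorem xx_ne (s : Fin 4) : xx k s ≠ 0 := al_ne_zero k (X_ne_zero _)

theorem yy_ne (s : Fin 4) : yy k s ≠ 0 := al_ne_zero k (X_ne_zero _)

theorem two_ne (h2 : (2 : k) ≠ 0) : (2 : LL k) ≠ 0 := by
  have h := (map_ne_zero_iff (algebraMap k (LL k)) (algebraMap k (LL k)).injective).2 h2
  rwa [map_ofNat] at h

theorem al_lt0 (s : Fin 4) : al k (lt k s 0) = (xx k s ^ 2 + yy k s ^ 2) ^ 2 := by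
  simp [lt, al, xx, yy]

theorem al_lt1 (s : Fin 4) : al k (lt k s 1) = xx k s ^ 2 * yy k s ^ 2 := by
  simp [lt, al, xx, yy]

theorem al_lt2 (s : Fin 4) :
    al k (lt k s 2) = (xx k s ^ 2 + yy k s ^ 2) * (xx k s * yy k s) := by
  simp [lt, al, xx, yy]

theorem al_lt3 (s : Fin 4) :
    al k (lt k s 3) = (xx k s ^ 2 + yy k s ^ 2) * (xx k s ^ 2 - yy k s ^ 2) := by
  simp [lt, al, xx, yy]

theorem al_lt4 (s : Fin 4) :
    al k (lt k s 4) = xx k s * yy k s * (xx k s ^ 2 - yy k s ^ 2) := by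
  simp [lt, al, xx, yy]

theorem al_fw (w : Fin 4 → Fin 5) : al k (fw k w) =
    al k (lt k 0 (w 0)) * al k (lt k 1 (w 1)) * al k (lt k 2 (w 2)) * al k (lt k 3 (w 3)) := by
  simp [fw, al, Fin.prod_univ_four]

theorem xy2_ne (s : Fin 4) : xx k s ^ 2 + yy k s ^ 2 ≠ 0 := by
  intro h
  have h1 := al_ne_zero k (lt_ne_zero k s 0)
  rw [al_lt0, h] at h1
  simp at h1

theorem xym_ne (s : Fin 4) : xx k s ^ 2 - yy k s ^ 2 ≠ 0 := by
  intro h
  have h1 := al_ne_zero k (lt_ne_zero k s 3)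
  rw [al_lt3, h] at h1
  simp at h1

variable {k}

theorem tt_sq_sub (h2 : (2 : k) ≠ 0) (s : Fin 4) : tt k s ^ 2 - mm k s ^ 2 = 1 := by
  have h2' := two_ne k h2
  have hx := xx_ne k s
  have hy := yy_ne k s
  unfold tt mm
  field_simp
  ring

theorem tt_ne (h2 : (2 : k) ≠ 0) (s : Fin 4) : tt k s ≠ 0 :=
  div_ne_zero (xy2_ne k s) (mul_ne_zero (mul_ne_zero (two_ne k h2) (xx_ne k s)) (yy_ne k s))

theorem mm_ne (h2 : (2 : k) ≠ 0) (s : Fin 4) : mm k s ≠ 0 :=
  div_ne_zero (xym_ne k s) (mul_ne_zero (mul_ne_zero (two_ne k h2) (xx_ne k s)) (yy_ne k s))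

theorem tt_sq_mem (h2 : (2 : k) ≠ 0) (s : Fin 4) : tt k s ^ 2 ∈ K0 k := by
  have h2' := two_ne k h2
  have h1 : ((bet k s : K0 k) : LL k) = al k (lt k s 1) / al k (lt k s 0) := by
    unfold bet
    rw [aa_div]
    have h : ∀ r : Fin 4, al k (lt k r 0) ≠ 0 := fun r => al_ne_zero k (lt_ne_zero k r 0)
    have h0 := h 0
    have h1 := h 1
    have h2 := h 2
    have h3 := h 3
    rw [al_fw, al_fw]
    fin_cases s <;> simp [w1, w0] <;> field_simp
  have h3 : tt k s ^ 2 = ((4 * bet k s)⁻¹ : K0 k) := by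
    change tt k s ^ 2 = ((4 : LL k) * ((bet k s : K0 k) : LL k))⁻¹
    rw [h1, al_lt0, al_lt1]
    have hx := xx_ne k s
    have hy := yy_ne k s
    have hxy := xy2_ne k s
    unfold tt
    have h4 : (4 : LL k) ≠ 0 := by
      have : (4 : LL k) = 2 * 2 := by norm_num
      rw [this]
      exact mul_ne_zero h2' h2'
    field_simp
    ring
  rw [h3]
  exact ((4 * bet k s)⁻¹ : K0 k).2

theorem mem_of_mul {c : k} (hc : c ≠ 0) {x y : LL k} (h : algebraMap k (LL k) c * x = y)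
    (hy : y ∈ K0 k) : x ∈ K0 k := by
  have hc' : algebraMap k (LL k) c ≠ 0 :=
    (map_ne_zero_iff (algebraMap k (LL k)) (algebraMap k (LL k)).injective).2 hc
  have h1 : x = (algebraMap k (LL k) c)⁻¹ * y := by
    rw [← h]
    field_simp
  rw [h1]
  exact (K0 k).mul_mem ((K0 k).inv_mem ((K0 k).algebraMap_mem c)) hy

theorem p0_mem (h2 : (2 : k) ≠ 0) : tt k 0 * tt k 1 * tt k 2 ∈ K0 k := by
  refine mem_of_mul (c := 8) (by
    have : (8 : k) = 2 ^ 3 := by norm_num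
    rw [this]
    exact pow_ne_zero 3 h2) ?_ (div_mem k ![2, 2, 2, 0] ![1, 1, 1, 0] (by decide) (by decide))
  have h2' := two_ne k h2
  rw [al_fw, al_fw, map_ofNat]
  simp only [Matrix.cons_val_zero, Matrix.cons_val_one, Matrix.cons_val, al_lt0, al_lt1, al_lt2]
  have hx0 := xx_ne k 0
  have hy0 := yy_ne k 0
  have hx1 := xx_ne k 1
  have hy1 := yy_ne k 1
  have hx2 := xx_ne k 2
  have hy2 := yy_ne k 2
  have h3 := xy2_ne k 3
  unfold tt
  field_simp
  ring

theorem p1_mem (h2 : (2 : k) ≠ 0) : mm k 0 * mm k 1 * mm k 2 ∈ K0 k := by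
  refine mem_of_mul (c := 8) (by
    have : (8 : k) = 2 ^ 3 := by norm_num
    rw [this]
    exact pow_ne_zero 3 h2) ?_ (div_mem k ![4, 4, 4, 0] ![1, 1, 1, 0] (by decide) (by decide))
  have h2' := two_ne k h2
  rw [al_fw, al_fw, map_ofNat]
  simp only [Matrix.cons_val_zero, Matrix.cons_val_one, Matrix.cons_val, al_lt0, al_lt1, al_lt4]
  have hx0 := xx_ne k 0
  have hy0 := yy_ne k 0
  have hx1 := xx_ne k 1
  have hy1 := yy_ne k 1
  have hx2 := xx_ne k 2
  have hy2 := yy_ne k 2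
  have h3 := xy2_ne k 3
  unfold mm
  field_simp
  ring

theorem p2_mem (h2 : (2 : k) ≠ 0) : tt k 0 * mm k 1 * tt k 3 ∈ K0 k := by
  refine mem_of_mul (c := 8) (by
    have : (8 : k) = 2 ^ 3 := by norm_num
    rw [this]
    exact pow_ne_zero 3 h2) ?_ (div_mem k ![2, 4, 0, 2] ![1, 1, 0, 1] (by decide) (by decide))
  have h2' := two_ne k h2
  rw [al_fw, al_fw, map_ofNat]
  simp only [Matrix.cons_val_zero, Matrix.cons_val_one, Matrix.cons_val, al_lt0, al_lt1, al_lt2,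
    al_lt4]
  have hx0 := xx_ne k 0
  have hy0 := yy_ne k 0
  have hx1 := xx_ne k 1
  have hy1 := yy_ne k 1
  have hx3 := xx_ne k 3
  have hy3 := yy_ne k 3
  have h3 := xy2_ne k 2
  unfold mm tt
  field_simp
  ring

theorem p3_mem (h2 : (2 : k) ≠ 0) : mm k 0 * tt k 1 * mm k 1 * mm k 3 ∈ K0 k := by
  refine mem_of_mul (c := 16) (by
    have : (16 : k) = 2 ^ 4 := by norm_num
    rw [this]
    exact pow_ne_zero 4 h2) ?_ (div_mem k ![4, 3, 0, 4] ![1, 1, 0, 1] (by decide) (by decide))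
  have h2' := two_ne k h2
  rw [al_fw, al_fw, map_ofNat]
  simp only [Matrix.cons_val_zero, Matrix.cons_val_one, Matrix.cons_val, al_lt0, al_lt1, al_lt3,
    al_lt4]
  have hx0 := xx_ne k 0
  have hy0 := yy_ne k 0
  have hx1 := xx_ne k 1
  have hy1 := yy_ne k 1
  have hx3 := xx_ne k 3
  have hy3 := yy_ne k 3
  have h3 := xy2_ne k 2
  unfold mm tt
  field_simp
  ring

/-- purely transcendental extensions of an algebraically closed field -/
theorem ppRat' : PPRat.{u} :=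
  Pool.Agent.Helper45.RZ.ppRat Pool.Agent.Helper46.RZ.ppEquiv
    (Pool.Agent.Helper11.RZ.stepPP Pool.Agent.Helper46.RZ.ramSim Pool.Agent.Helper72.RZ.ramGauss
      Pool.Agent.Helper28.RZ.normForm (Pool.Agent.Helper90.RZ.localSq Pool.Agent.Helper51.RZ.padic)
      Pool.Agent.Helper68.RZ.lattice1 Pool.Agent.Helper68.RZ.lattice2)

theorem nonRat : NonRat.{u} := by
  intro k _ _ h2 hrat
  obtain ⟨n, ⟨e⟩⟩ := hrat
  have hPP : PP (K0 k) := Pool.Agent.Helper46.RZ.ppEquiv _ _ e.symm.toRingEquiv (ppRat' k h2 n)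
  have h2K : (2 : K0 k) ≠ 0 := by
    have h := (map_ne_zero_iff (algebraMap k (K0 k)) (algebraMap k (K0 k)).injective).2 h2
    rwa [map_ofNat] at h
  obtain ⟨i, hi⟩ := IsAlgClosed.exists_pow_nat_eq (-1 : k) (n := 2) (by norm_num)
  let b : Fin 4 → K0 k := fun s => ⟨tt k s ^ 2, tt_sq_mem h2 s⟩
  let c : Fin 4 → K0 k := fun s => b s - 1
  have hb : ∀ s, (b s : LL k) = tt k s ^ 2 := fun s => rfl
  have hc : ∀ s, (c s : LL k) = mm k s ^ 2 := fun s => by
    change (b s : LL k) - 1 = mm k s ^ 2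
    rw [hb, ← tt_sq_sub h2 s]
    ring
  let p : Fin 4 → K0 k := ![⟨_, p0_mem h2⟩, ⟨_, p1_mem h2⟩, ⟨_, p2_mem h2⟩, ⟨_, p3_mem h2⟩]
  have hb0 : ∀ s, b s ≠ 0 := fun s h => by
    have h1 := congrArg Subtype.val h
    rw [hb] at h1
    exact pow_ne_zero 2 (tt_ne h2 s) h1
  have hc0 : ∀ s, c s ≠ 0 := fun s h => by
    have h1 := congrArg Subtype.val h
    rw [hc] at h1
    exact pow_ne_zero 2 (mm_ne h2 s) h1
  have hun : ∀ V : ZVal (K0 k), ¬ Ram V (dg 1 (-b 0) (-b 1)) := by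
    intro V
    refine unramK (K0 k) h2K (algebraMap k (K0 k) i) (by rw [← map_pow, hi, map_neg, map_one])
      b c p hb0 hc0 (fun s => by simp [c]) ?_ ?_ ?_ ?_ V ?_
    · apply Subtype.ext
      change tt k 0 ^ 2 * tt k 1 ^ 2 * tt k 2 ^ 2 = (tt k 0 * tt k 1 * tt k 2) ^ 2
      ring
    · apply Subtype.ext
      change (c 0 : LL k) * (c 1 : LL k) * (c 2 : LL k) = (mm k 0 * mm k 1 * mm k 2) ^ 2
      rw [hc, hc, hc]
      ring
    · apply Subtype.ext
      change (b 0 : LL k) * (c 1 : LL k) * (b 3 : LL k) = (tt k 0 * mm k 1 * tt k 3) ^ 2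
      rw [hc, hb, hb]
      ring
    · apply Subtype.ext
      change (c 0 : LL k) * (b 1 : LL k) * (c 1 : LL k) * (c 3 : LL k) =
        (mm k 0 * tt k 1 * mm k 1 * mm k 3) ^ 2
      rw [hc, hc, hc, hb]
      ring
    · have h := Pool.Agent.Helper46.RZ.valConst k (K0 k) V 2 h2
      rwa [map_ofNat] at h
  obtain ⟨x, hx0, hx⟩ := hPP 1 (-b 0) (-b 1) one_ne_zero (neg_ne_zero.2 (hb0 0))
    (neg_ne_zero.2 (hb0 1)) hun
  have hx' : (x 0 : LL k) ^ 2 = tt k 0 ^ 2 * (x 1 : LL k) ^ 2 + tt k 1 ^ 2 * (x 2 : LL k) ^ 2 := by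
    have h1 := congrArg Subtype.val hx
    have h3 : (1 : LL k) * (x 0 : LL k) ^ 2 + -(b 0 : LL k) * (x 1 : LL k) ^ 2 +
        -(b 1 : LL k) * (x 2 : LL k) ^ 2 = 0 := h1
    rw [hb, hb] at h3
    linear_combination h3
  obtain ⟨e0, e1, e2⟩ := Pool.Agent.Helper54.RZ.noConic k h2 (fun a => (ga k a : LL k →+* LL k))
    (fun a P => ga_algebraMap k a P) (x 0) (x 1) (x 2) (fun a => ga_K0 k a _ (x 0).2)
    (fun a => ga_K0 k a _ (x 1).2) (fun a => ga_K0 k a _ (x 2).2) hx'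
  apply hx0
  funext j
  fin_cases j
  · exact Subtype.ext e0
  · exact Subtype.ext e1
  · exact Subtype.ext e2

end

end Pool.Agent.Helper36.RZ
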